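import Mathlib

set_option autoImplicit false

namespace Pool.Agent.Results.MP_28c1b3_co.AFalse

open Finset

/-- The ground set `[n] = {1, …, n}`. -/
def ground (n : ℕ) : Finset ℕ := Icc 1 n

/-- `F` is `t`-avoiding: distinct members never meet in exactly `t` points. -/
def Avoiding (t : ℕ) (F : Finset (Finset ℕ)) : Prop :=
  ∀ A ∈ F, ∀ B ∈ F, A ≠ B → (A ∩ B).card ≠ t

/-- The number of unordered pairs of distinct, disjoint members of `F`. -/
def disjPairs (F : Finset (Finset ℕ)) : ℕ :=
  ((F.powersetCard 2).filter fun P => ∀ A ∈ P, ∀ B ∈ P, A ≠ B → A ∩ B = ∅).card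

/-- The family `F(n,t)`. -/
def bigFam (n t : ℕ) : Finset (Finset ℕ) :=
  if (n + t) % 2 = 1 then (ground n).powerset.filter fun A => (n + t + 1) / 2 ≤ A.card
  else (ground n).powerset.filter fun A => (n + t) / 2 ≤ (A ∩ (ground n \ {1})).card

/-- The family `F*(n,t)`. -/
def starFam (n t : ℕ) : Finset (Finset ℕ) :=
  bigFam n t ∪ (ground n).powerset.filter fun A => A.card ≤ t - 1

lemma two_le_inter {m : ℕ} {A B : Finset ℕ} (hA : m + 1 ≤ (A ∩ (ground (2 * m + 1) \ {1})).card)
    (hB : m + 1 ≤ (B ∩ (ground (2 * m + 1) \ {1})).card) : 2 ≤ (A ∩ B).card := by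
  set S := ground (2 * m + 1) \ {1} with hS
  have hSc : S.card = 2 * m := by
    rw [hS, card_sdiff_of_subset (by simp [ground])]
    simp [ground]
  have h1 := card_union_add_card_inter (A ∩ S) (B ∩ S)
  have h2 : (A ∩ S ∪ B ∩ S).card ≤ S.card :=
    card_le_card (union_subset inter_subset_right inter_subset_right)
  have h3 : (A ∩ S ∩ (B ∩ S)).card ≤ (A ∩ B).card :=
    card_le_card (inter_subset_inter inter_subset_left inter_subset_left)
  omega

lemma mem_big {m : ℕ} {A : Finset ℕ} : A ∈ bigFam (2 * m + 1) 1 ↔
    A ⊆ ground (2 * m + 1) ∧ m + 1 ≤ (A ∩ (ground (2 * m + 1) \ {1})).card := by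
  have h1 : ¬ (2 * m + 1 + 1) % 2 = 1 := by omega
  have h2 : (2 * m + 1 + 1) / 2 = m + 1 := by omega
  simp only [bigFam, h1, if_false, h2, mem_filter, mem_powerset]

lemma upper (m : ℕ) : disjPairs (starFam (2 * m + 1) 1) ≤ (bigFam (2 * m + 1) 1).card := by
  unfold disjPairs
  refine le_trans (card_le_card (t := (bigFam (2 * m + 1) 1).image fun A => {∅, A}) ?_)
    card_image_le
  intro P hP
  rw [mem_filter, mem_powersetCard] at hP
  obtain ⟨⟨hsub, hc⟩, hd⟩ := hP
  obtain ⟨A, B, hAB, rfl⟩ := card_eq_two.1 hc
  have hA := hsub (mem_insert_self A {B})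
  have hB := hsub (mem_insert_of_mem (mem_singleton_self B))
  have hd' := hd A (by simp) B (by simp) hAB
  simp only [starFam, mem_union, mem_filter, Nat.sub_self, nonpos_iff_eq_zero,
    card_eq_zero] at hA hB
  rcases hA with hA | hA <;> rcases hB with hB | hB
  · have := two_le_inter (mem_big.1 hA).2 (mem_big.1 hB).2
    rw [hd'] at this; simp at this
  · exact mem_image.2 ⟨A, hA, by rw [hB.2, pair_comm]⟩
  · exact mem_image.2 ⟨B, hB, by rw [hA.2]⟩
  · exact absurd (hA.2.trans hB.2.symm) hAB

/-- the better family -/
def better (m : ℕ) : Finset (Finset ℕ) :=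
  insert ∅ (insert {1} ((bigFam (2 * m + 1) 1).filter fun A => 1 ∉ A))

lemma lower (m : ℕ) : (bigFam (2 * m + 1) 1).card + 1 ≤ disjPairs (better m) := by
  have h1 : ({1} : Finset ℕ) ∉ bigFam (2 * m + 1) 1 := by
    intro h
    have := (mem_big.1 h).2
    simp at this
  rw [← card_insert_of_notMem h1]
  unfold disjPairs
  refine card_le_card_of_injOn (fun A => if 1 ∈ A then {{1}, A.erase 1} else {∅, A}) ?_ ?_
  · intro A hA
    have hA' := mem_insert.1 (mem_coe.1 hA)
    refine mem_coe.2 (mem_filter.2 ?_)
    by_cases h : 1 ∈ A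
    · simp only [h, if_true]
      have hne : ({1} : Finset ℕ) ≠ A.erase 1 := by
        intro e
        have : 1 ∈ A.erase 1 := by rw [← e]; simp
        simp at this
      refine ⟨mem_powersetCard.2 ⟨?_, card_pair hne⟩, ?_⟩
      · refine insert_subset (by simp [better]) (singleton_subset_iff.2 ?_)
        rcases hA' with rfl | hA'
        · simp [better]
        · refine mem_insert_of_mem (mem_insert_of_mem (mem_filter.2 ⟨?_, by simp⟩))
          obtain ⟨h2, h3⟩ := mem_big.1 hA'
          refine mem_big.2 ⟨(erase_subset _ _).trans h2, h3.trans (card_le_card ?_)⟩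
          intro x hx
          simp only [mem_inter, mem_sdiff, mem_singleton, mem_erase] at hx ⊢
          tauto
      · intro X hX Y hY hXY
        simp only [mem_insert, mem_singleton] at hX hY
        rcases hX with rfl | rfl <;> rcases hY with rfl | rfl
        · exact absurd rfl hXY
        · simp
        · simp
        · exact absurd rfl hXY
    · simp only [h, if_false]
      have hA'' : A ∈ bigFam (2 * m + 1) 1 := by
        rcases hA' with rfl | hA'
        · simp at h
        · exact hA'
      have hne : (∅ : Finset ℕ) ≠ A := by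
        rintro rfl
        have := (mem_big.1 hA'').2
        simp at this
      refine ⟨mem_powersetCard.2 ⟨?_, card_pair hne⟩, ?_⟩
      · refine insert_subset (by simp [better]) (singleton_subset_iff.2 ?_)
        exact mem_insert_of_mem (mem_insert_of_mem (mem_filter.2 ⟨hA'', h⟩))
      · intro X hX Y hY hXY
        simp only [mem_insert, mem_singleton] at hX hY
        rcases hX with rfl | rfl <;> rcases hY with rfl | rfl
        · exact absurd rfl hXY
        · simp
        · simp
        · exact absurd rfl hXY
  · have key : ∀ A : Finset ℕ,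
        (if 1 ∈ A then {{1}, A.erase 1} else {∅, A} : Finset (Finset ℕ)).sup id = A := by
      intro A
      by_cases h : 1 ∈ A
      · simp only [h, if_true, sup_insert, sup_singleton, id]
        rw [sup_eq_union, singleton_union, insert_erase h]
      · simp [h]
    intro A _ B _ hAB
    rw [← key A, ← key B]
    exact congrArg (fun P : Finset (Finset ℕ) => P.sup id) hAB

/-- For `t = 1` and every odd `n` some `1`-avoiding family of subsets of `[n]` has more disjoint
pairs than `F*(n,1)`. -/
theorem result : ∀ n : ℕ, Odd n → ∃ F : Finset (Finset ℕ), F ⊆ (ground n).powerset ∧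
    Avoiding 1 F ∧ disjPairs (starFam n 1) < disjPairs F := by
  rintro n ⟨m, rfl⟩
  refine ⟨better m, ?_, ?_, ?_⟩
  · intro A hA
    simp only [better, mem_insert, mem_filter] at hA
    rcases hA with rfl | rfl | hA
    · simp
    · simp [ground]
    · exact mem_powerset.2 (mem_big.1 hA.1).1
  · intro A hA B hB hAB
    simp only [better, mem_insert, mem_filter] at hA hB
    rcases hA with rfl | rfl | hA
    · simp
    · rcases hB with rfl | rfl | hB
      · simp
      · exact absurd rfl hAB
      · rw [singleton_inter_of_notMem hB.2]; simp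
    · rcases hB with rfl | rfl | hB
      · simp
      · rw [inter_singleton_of_notMem hA.2]; simp
      · have := two_le_inter (mem_big.1 hA.1).2 (mem_big.1 hB.1).2
        omega
  · have := upper m
    have := lower m
    omega

end Pool.Agent.Results.MP_28c1b3_co.AFalse
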